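import Pool.Agent.Helper47.ME.All

/-!
The sharp lower bound of the volume by the affine quermassintegral in dimension 3 (the case n = 3,
i = 1 of the problem) with all the bodies of equality: Makai's inequality V(K) V((K-K)°) ≥ 2/3 for
all convex bodies of ℝ³, with equality exactly for the simplices.
-/

open MeasureTheory Set
open Pool.Agent.Helper47.AQ

namespace Pool.Agent.Results.MP_6fb600_gt.DimensionThree

/-- For every convex body K of ℝ³: (3/π²)^{1/3} Φ₂(K) ≤ κ₃^{2/3} V(K)^{1/3} and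
V(K) V((K-K)°) ≥ 2/3, in both cases with equality if and only if K is a simplex; (3/π²)^{1/3} is
the largest constant. -/
theorem result :
    (∀ K : Set (Fin 3 → ℝ), IsBody K →
      (3 / Real.pi ^ 2) ^ ((1 : ℝ) / 3) * Phi K ≤
        kap 3 ^ ((2 : ℝ) / 3) * (volume K).toReal ^ ((1 : ℝ) / 3) ∧
      ((3 / Real.pi ^ 2) ^ ((1 : ℝ) / 3) * Phi K =
        kap 3 ^ ((2 : ℝ) / 3) * (volume K).toReal ^ ((1 : ℝ) / 3) ↔ IsSimplex K) ∧
      2 / 3 ≤ (volume K).toReal * (volume (dpol K)).toReal ∧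
      ((volume K).toReal * (volume (dpol K)).toReal = 2 / 3 ↔ IsSimplex K)) ∧
    IsGreatest {a : ℝ | ∀ K : Set (Fin 3 → ℝ), IsBody K →
      a * Phi K ≤ kap 3 ^ ((2 : ℝ) / 3) * (volume K).toReal ^ ((1 : ℝ) / 3)}
      ((3 / Real.pi ^ 2) ^ ((1 : ℝ) / 3)) :=
  Pool.Agent.Helper47.ME.final Pool.Agent.Helper72.MK.fMAIN Pool.Agent.Helper47.ME.fEQ3

end Pool.Agent.Results.MP_6fb600_gt.DimensionThree
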