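import Pool.Agent.Helper31.LW.All
import Pool.Agent.Helper31.LW.Cross

/-!
The inequality of the problem with the constant of the simplex for all the affine quermassintegrals
of the polytopes with few vertices: the convex hulls of `n + k` points which can be divided into `k`
groups whose convex hulls have a common point; these include all polytopes with at most `n + 2`
vertices and the cross-polytopes.

The integral `mom n i K` is positive and finite for every convex body `K`:
`Pool.Agent.Helper31.LQ.mom_fin`.
-/

open MeasureTheory Set
open Pool.Agent.Helper31.LQ (E Body Splx)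
open Pool.Agent.Helper31.LQ.St
open Pool.Agent.Helper31.LW (Grouped)

namespace Pool.Agent.Results.MP_6fb600_gt.FewVertices

/-- Let 1 ≤ i < n.  Every convex body K in ℝⁿ which is the convex hull of n + k points, k ≥ 1, that
can be divided into k groups whose convex hulls have a common point, satisfies
a Φ_{n-i}(K) ≤ κ_n^{(n-i)/n} V(K)^{i/n} with the constant a of the simplex, with equality exactly if
K is a simplex.  The convex hull of any n + 2 points is of this kind, and so is the convex hull of
any n segments with a common point. -/
theorem result (n i : ℕ) (hi : 1 ≤ i) (hin : i < n) :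
    (∀ K : Set (E n), Body K → Grouped n K →
      aS n i * Phi n i K ≤ rhs n i K ∧ (aS n i * Phi n i K = rhs n i K ↔ Splx K)) ∧
    (∀ x : Fin (n + 2) → E n, Grouped n (convexHull ℝ (range x))) ∧
    ∀ (y z : Fin n → E n) (p : E n), (∀ j, p ∈ segment ℝ (y j) (z j)) →
      Grouped n (convexHull ℝ (range y ∪ range z)) :=
  ⟨fun K hK hG => Pool.Agent.Helper31.LW.All.tfew n i hi hin K hK hG,
    Pool.Agent.Helper31.LW.radon,
    fun y z p h => Pool.Agent.Helper31.LW.cross n (by omega) y z p h⟩

end Pool.Agent.Results.MP_6fb600_gt.FewVertices
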