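import Pool.Agent.Helper31.LQ.All
import Pool.Agent.Helper31.LQ.Stmt

/-!
Local minimality of the simplex, with the exact constant of linear stability, in the reverse
inequality for all the affine quermassintegrals: every convex body of ℝⁿ which nearly fills a simplex
containing it satisfies the inequality of the problem with the constant of the simplex.

The integral `mom n i K` is positive and finite for every convex body `K`:
`Pool.Agent.Helper31.LQ.mom_fin`.
-/

open MeasureTheory Set
open Pool.Agent.Helper31.LQ (E Body Splx)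
open Pool.Agent.Helper31.LQ.St

namespace Pool.Agent.Results.MP_6fb600_gt.LocalAllIndices

/-- Let 1 ≤ i < n, and let T be the standard simplex.  For every c < i/(n-1) there is ε > 0 such that
every convex body K contained in a simplex D with V(K) ≥ (1 - ε) V(D) satisfies
a Φ_{n-i}(K) ≤ κ_n^{(n-i)/n} V(K)^{i/n} with the constant a of the simplex, with equality exactly if
K is a simplex, and
V(K)^i ∫ λ_i(K|S)^{-n} dS ≥ (1 + c (1 - V(K)/V(D'))) V(T)^i ∫ λ_i(T|S)^{-n} dS
for some simplex D' containing K.  For c > i/(n-1) the last part is false: for every ε > 0 there is a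
convex body K, contained in a simplex D with V(K) ≥ (1 - ε) V(D), for which the last inequality is
violated for all the simplices D' containing K.  So i/(n-1) is the exact constant. -/
theorem result (n i : ℕ) (hi : 1 ≤ i) (hin : i < n) :
    (∀ c : ℝ, c < i / ((n : ℝ) - 1) → ∃ ε : ℝ, 0 < ε ∧ ∀ K : Set (E n), Body K → Near ε K →
      aS n i * Phi n i K ≤ rhs n i K ∧ (aS n i * Phi n i K = rhs n i K ↔ Splx K) ∧ Gap i c K) ∧
    ∀ c : ℝ, i / ((n : ℝ) - 1) < c → ∀ ε : ℝ, 0 < ε →
      ∃ K : Set (E n), Body K ∧ Near ε K ∧ ¬ Gap i c K := by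
  refine ⟨fun c hc => ?_, fun c hc ε hε => ?_⟩
  · obtain ⟨ε, hε, h⟩ := Pool.Agent.Helper31.LQ.All.tfinal n i hi hin c hc
    refine ⟨ε, hε, fun K hK hN => ?_⟩
    obtain ⟨D, hD, hKD, hv⟩ := hN
    exact h K hK D hD hKD hv
  · obtain ⟨K, D, hK, hD, hKD, hv, h⟩ := Pool.Agent.Helper31.LQ.All.tsharp n i hi hin c hc ε hε
    refine ⟨K, hK, ⟨D, hD, hKD, hv⟩, fun hG => ?_⟩
    obtain ⟨D', hD', hKD', h1⟩ := hG
    exact absurd h1 (not_le.2 (h D' hD' hKD'))

end Pool.Agent.Results.MP_6fb600_gt.LocalAllIndices
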