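import Pool.Agent.Helper82.PN.All
import Pool.Agent.Helper14.PN.REVS

/-!
The case i = 1 of the sharp lower bound of the volume by the affine quermassintegrals, in all
dimensions n ≥ 4, with all the bodies of equality: for all polytopes with at most n + 3 vertices, for all
solids of revolution, for the hulls of a compact convex set of dimension at most three and n - 2
points, and for all the bodies of a class with many closure properties.
-/

open MeasureTheory Set
open Pool.Agent.Helper47.AQ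
open Pool.Agent.Helper82.PN.St (Cls2 Near)

namespace Pool.Agent.Results.MP_6fb600_gt.NPlusThreeVertices

/-- (1) For the bodies K of the class the inequality a Φ(K) ≤ κ^{(n-1)/n} V(K)^{1/n} holds, with
equality exactly for the simplices, and V(K) V((K-K)°) ≥ (n+1)/n!, again with equality exactly for the
simplices.  (2) Both inequalities hold for the convex bodies which are limits of bodies of the class.
In the class are: (3) all convex hulls of n + 3 points, (4) all solids of revolution (with axis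
parallel to the coordinate i₀), (5) all convex hulls of an (affine image of a) nonempty compact convex
set of ℝ³ and n - 2 points, (6) all convex hulls of an affine copy of C and n - k + 1 points if C is a
convex body of ℝᵏ such that the hull of C and p is in the class for all p in ℝᵏ, (7) all simplices,
(8) all bodies of the class of CornersFreeSums.  (9) The constant a is the best one. -/
theorem result (n : ℕ) (hn : 4 ≤ n) :
    (∀ K : Set (Fin n → ℝ), Cls2 K →
      aC n * Phi K ≤ kap n ^ (((n : ℝ) - 1) / n) * (volume K).toReal ^ (1 / (n : ℝ)) ∧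
      (aC n * Phi K = kap n ^ (((n : ℝ) - 1) / n) * (volume K).toReal ^ (1 / (n : ℝ)) ↔
        IsSimplex K) ∧
      ((n : ℝ) + 1) / (n.factorial : ℝ) ≤ (volume K).toReal * (volume (dpol K)).toReal ∧
      ((volume K).toReal * (volume (dpol K)).toReal = ((n : ℝ) + 1) / (n.factorial : ℝ) ↔
        IsSimplex K)) ∧
    (∀ K : Set (Fin n → ℝ), IsBody K →
      (∀ ε : ℝ, 0 < ε → ∃ K' : Set (Fin n → ℝ), Cls2 K' ∧ Near ε K K') →
      aC n * Phi K ≤ kap n ^ (((n : ℝ) - 1) / n) * (volume K).toReal ^ (1 / (n : ℝ)) ∧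
      ((n : ℝ) + 1) / (n.factorial : ℝ) ≤ (volume K).toReal * (volume (dpol K)).toReal) ∧
    (∀ v : Fin (n + 3) → Fin n → ℝ, (interior (convexHull ℝ (range v))).Nonempty →
      Cls2 (convexHull ℝ (range v))) ∧
    (∀ (i₀ : Fin n) (K : Set (Fin n → ℝ)), IsBody K →
      (∀ x ∈ K, ∀ y : Fin n → ℝ, y i₀ = x i₀ → ∑ i, y i ^ 2 ≤ ∑ i, x i ^ 2 → y ∈ K) → Cls2 K) ∧
    (∀ (C : Set (Fin 3 → ℝ)) (A : (Fin 3 → ℝ) →ᵃ[ℝ] (Fin n → ℝ)) (y : Fin (n - 2) → Fin n → ℝ),
      Convex ℝ C → IsCompact C → C.Nonempty →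
      (interior (convexHull ℝ (A '' C ∪ range y))).Nonempty →
      Cls2 (convexHull ℝ (A '' C ∪ range y))) ∧
    (∀ (k : ℕ) (C : Set (Fin k → ℝ)) (A : (Fin k → ℝ) →ᵃ[ℝ] (Fin n → ℝ))
      (y : Fin (n - k + 1) → Fin n → ℝ), IsBody C →
      (∀ p : Fin k → ℝ, Cls2 (convexHull ℝ (insert p C))) → Function.Injective A →
      (interior (convexHull ℝ (A '' C ∪ range y))).Nonempty →
      Cls2 (convexHull ℝ (A '' C ∪ range y))) ∧
    (∀ K : Set (Fin n → ℝ), IsSimplex K → Cls2 K) ∧
    (∀ K : Set (Fin n → ℝ), Cls K → Cls2 K) ∧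
    IsGreatest {a : ℝ | ∀ K : Set (Fin n → ℝ), Cls2 K →
      a * Phi K ≤ kap n ^ (((n : ℝ) - 1) / n) * (volume K).toReal ^ (1 / (n : ℝ))} (aC n) := by
  have hne : Nonempty (Fin n) := Fin.pos_iff_nonempty.1 (by omega)
  have key : ∀ K : Set (Fin n → ℝ), Cls2 K →
      aC n * Phi K ≤ kap n ^ (((n : ℝ) - 1) / n) * (volume K).toReal ^ (1 / (n : ℝ)) ∧
      (aC n * Phi K = kap n ^ (((n : ℝ) - 1) / n) * (volume K).toReal ^ (1 / (n : ℝ)) ↔
        IsSimplex K) ∧
      ((n : ℝ) + 1) / (n.factorial : ℝ) ≤ (volume K).toReal * (volume (dpol K)).toReal ∧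
      ((volume K).toReal * (volume (dpol K)).toReal = ((n : ℝ) + 1) / (n.factorial : ℝ) ↔
        IsSimplex K) := by
    intro K hK
    obtain ⟨h1, h2, h3⟩ := Pool.Agent.Helper82.PN.cls2_main hK
    obtain ⟨h4, h5⟩ := h1.Phi_iff
    unfold Pool.Agent.Helper82.PN.cn at h2 h3
    simp only [Fintype.card_fin] at h2 h3 h4 h5
    refine ⟨h4.2 h2, ⟨fun h6 => h3 (h5.1 h6), fun h6 => h5.2 ?_⟩, h2, ⟨fun h6 => h3 h6,
      fun h6 => ?_⟩⟩
    · have h7 := h6.F_eq
      simpa using h7
    · have h7 := h6.F_eq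
      simpa [F] using h7
  refine ⟨key, fun K hK hlim => ?_, fun v hv => Cls2.few v (by simp) hv,
    fun i₀ K hK h => Pool.Agent.Helper14.PN.gREVS n i₀ K hK h,
    fun C A y hC hCc hCn hint => Pool.Agent.Helper82.PN.base_cls2 C A y hC hCc hCn hint,
    fun k C A y hC hp hA hint => Pool.Agent.Helper82.PN.points_cls2 C A y hC hp hA hint,
    fun K hK => Pool.Agent.Helper82.PN.simplex_cls2 hK,
    fun K hK => Pool.Agent.Helper82.PN.cls2_of_cls hK,
    fun K hK => (key K hK).1, fun a ha => ?_⟩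
  · have h2 := Pool.Agent.Helper82.PN.lim_le hK hlim
    obtain ⟨h4, -⟩ := hK.Phi_iff
    unfold Pool.Agent.Helper82.PN.cn at h2
    simp only [Fintype.card_fin] at h2 h4
    exact ⟨h4.2 h2, h2⟩
  have hs : IsSimplex {x : Fin n → ℝ | (∀ i, 0 ≤ x i) ∧ ∑ i, x i ≤ 1} := by
    have h2 := simplexW (fun _ : Fin n => (1 : ℝ)) (fun _ => one_pos)
    simp only [mul_one] at h2
    exact ⟨corner_simplex.body.int, h2⟩
  have hc := Pool.Agent.Helper82.PN.simplex_cls2 hs
  have h1 := ha _ hc
  rw [← (key _ hc).2.1.2 hs] at h1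
  exact le_of_mul_le_mul_right h1 hs.isBody.Phi_pos

end Pool.Agent.Results.MP_6fb600_gt.NPlusThreeVertices
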